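import Mathlib
import Pool.Agent.P8H70.SR.Stm2

set_option autoImplicit false

/-!
# SR/HFL: local Hölder continuity implies decay of Taylor coefficients
-/

open Filter Topology Metric Set

namespace Pool.Agent.P8H57.SR

open Pool.Agent.P8H70.SR

/-- the rotation factors -/
noncomputable def ss (σ : ℕ → ℂ) : ℕ → ℂ
  | 0 => 1
  | i + 1 => σ i * ss σ i ^ 2

lemma ss_norm {σ : ℕ → ℂ} (h : ∀ i, ‖σ i‖ = 1) (m : ℕ) : ‖ss σ m‖ = 1 := by
  induction m with
  | zero => simp [ss]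
  | succ m ih => simp [ss, h, ih]

lemma ss_step (σ : ℕ → ℂ) (m : ℕ) (z : ℂ) :
    ss σ (m + 1) * z ^ 2 ^ (m + 1) = σ m * (ss σ m * z ^ 2 ^ m) ^ 2 := by
  simp only [ss]
  ring

lemma ss_ball {σ : ℕ → ℂ} (h : ∀ i, ‖σ i‖ = 1) (m : ℕ) {z : ℂ} (hz : z ∈ ball (0 : ℂ) 1) :
    ss σ m * z ^ 2 ^ m ∈ ball (0 : ℂ) 1 := by
  rw [mem_ball_zero_iff] at hz ⊢
  rw [norm_mul, ss_norm h, one_mul, norm_pow]
  exact pow_lt_one₀ (norm_nonneg _) hz (by positivity)

lemma pow_lip {z w : ℂ} (hz : ‖z‖ ≤ 1) (hw : ‖w‖ ≤ 1) (n : ℕ) : ‖z ^ n - w ^ n‖ ≤ n * ‖z - w‖ := by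
  induction n with
  | zero => simp
  | succ n ih =>
    have h1 : z ^ (n + 1) - w ^ (n + 1) = z ^ n * (z - w) + (z ^ n - w ^ n) * w := by ring
    rw [h1]
    refine (norm_add_le _ _).trans ?_
    rw [norm_mul, norm_mul, norm_pow]
    have h2 : ‖z‖ ^ n ≤ 1 := pow_le_one₀ (norm_nonneg _) hz
    have h3 : ‖z‖ ^ n * ‖z - w‖ ≤ 1 * ‖z - w‖ := mul_le_mul_of_nonneg_right h2 (norm_nonneg _)
    have h4 : ‖z ^ n - w ^ n‖ * ‖w‖ ≤ ‖z ^ n - w ^ n‖ * 1 :=
      mul_le_mul_of_nonneg_left hw (norm_nonneg _)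
    push_cast
    nlinarith

lemma le_rpow {x α : ℝ} (hx0 : 0 ≤ x) (hx : x ≤ 2) (h0 : 0 < α) (h1 : α < 1) : x ≤ 2 * x ^ α := by
  rcases hx0.eq_or_lt with rfl | hpos
  · rw [Real.zero_rpow h0.ne']; simp
  · have e1 : x = x ^ (1 - α) * x ^ α := by
      rw [← Real.rpow_add hpos]; simp
    have e2 : x ^ (1 - α) ≤ 2 := by
      calc x ^ (1 - α) ≤ 2 ^ (1 - α) := Real.rpow_le_rpow hx0 hx (by linarith)
        _ ≤ 2 ^ (1 : ℝ) := Real.rpow_le_rpow_of_exponent_le (by norm_num) (by linarith)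
        _ = 2 := Real.rpow_one 2
    calc x = x ^ (1 - α) * x ^ α := e1
      _ ≤ 2 * x ^ α := mul_le_mul_of_nonneg_right e2 (Real.rpow_nonneg hx0 _)

lemma hoelder {P q : ℕ → ℂ → ℂ} {σ : ℕ → ℂ} {α H : ℝ} {W : Set ℂ} (h0 : 0 < α) (h1 : α < 1)
    (hσ : ∀ i, ‖σ i‖ = 1)
    (hP : ∀ i, ∀ z ∈ ball (0 : ℂ) 1, ‖P i z‖ ≤ 2) (hq : ∀ i, ∀ z ∈ ball (0 : ℂ) 1, ‖q i z‖ ≤ 2)
    (hL : ∀ i, ∀ z ∈ ball (0 : ℂ) 1, ∀ w ∈ ball (0 : ℂ) 1, ‖q i z - q i w‖ ≤ ‖z - w‖)
    (hE : ∀ i, ∀ z ∈ ball (0 : ℂ) 1, P i z * q i z = P (i + 1) (σ i * z ^ 2))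
    (hH : ∀ z ∈ ball (0 : ℂ) 1 ∩ W, ∀ w ∈ ball (0 : ℂ) 1 ∩ W, ‖P 0 z - P 0 w‖ ≤ H * ‖z - w‖ ^ α)
    (m : ℕ) : ∃ C : ℝ, 0 ≤ C ∧ ∀ z ∈ ball (0 : ℂ) 1 ∩ W, ∀ w ∈ ball (0 : ℂ) 1 ∩ W,
      ‖P m (ss σ m * z ^ 2 ^ m) - P m (ss σ m * w ^ 2 ^ m)‖ ≤ C * ‖z - w‖ ^ α := by
  induction m with
  | zero =>
    refine ⟨|H|, abs_nonneg _, fun z hz w hw => ?_⟩
    simp only [ss, pow_zero, pow_one, one_mul]
    exact (hH z hz w hw).trans (mul_le_mul_of_nonneg_right (le_abs_self H)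
      (Real.rpow_nonneg (norm_nonneg _) _))
  | succ m ih =>
    obtain ⟨C, hC, ih⟩ := ih
    refine ⟨2 * C + 4 * 2 ^ m, by positivity, fun z hz w hw => ?_⟩
    have ez := ss_ball hσ m hz.1
    have ew := ss_ball hσ m hw.1
    rw [ss_step, ss_step, ← hE m _ ez, ← hE m _ ew]
    set a := ss σ m * z ^ 2 ^ m with ha
    set b := ss σ m * w ^ 2 ^ m with hb
    have e1 : P m a * q m a - P m b * q m b = (P m a - P m b) * q m a + P m b * (q m a - q m b) := by
      ring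
    have e2 : ‖a - b‖ ≤ 2 ^ m * ‖z - w‖ := by
      rw [ha, hb, ← mul_sub, norm_mul, ss_norm hσ, one_mul]
      have := pow_lip (mem_ball_zero_iff.1 hz.1).le (mem_ball_zero_iff.1 hw.1).le (2 ^ m)
      push_cast at this
      exact this
    have e3 : ‖z - w‖ ≤ 2 * ‖z - w‖ ^ α := by
      apply le_rpow (norm_nonneg _) _ h0 h1
      calc ‖z - w‖ ≤ ‖z‖ + ‖w‖ := norm_sub_le _ _
        _ ≤ 2 := by
          have := (mem_ball_zero_iff.1 hz.1).le
          have := (mem_ball_zero_iff.1 hw.1).le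
          linarith
    have e4 := ih z hz w hw
    have e5 := hL m a ez b ew
    have e6 := hq m a ez
    have e7 := hP m b ew
    rw [e1]
    calc ‖(P m a - P m b) * q m a + P m b * (q m a - q m b)‖
        ≤ ‖P m a - P m b‖ * ‖q m a‖ + ‖P m b‖ * ‖q m a - q m b‖ := by
          refine (norm_add_le _ _).trans ?_
          rw [norm_mul, norm_mul]
      _ ≤ (C * ‖z - w‖ ^ α) * 2 + 2 * (2 ^ m * (2 * ‖z - w‖ ^ α)) := by
          apply add_le_add
          · exact mul_le_mul e4 e6 (norm_nonneg _) ((norm_nonneg _).trans e4)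
          · apply mul_le_mul e7 _ (norm_nonneg _) (by norm_num)
            refine e5.trans (e2.trans ?_)
            exact mul_le_mul_of_nonneg_left e3 (by positivity)
      _ = (2 * C + 4 * 2 ^ m) * ‖z - w‖ ^ α := by ring

lemma exp_dist (x : ℝ) : ‖Complex.exp (x * Complex.I) - 1‖ ≤ |x| := by
  have := Real.norm_exp_I_mul_ofReal_sub_one_le (x := x)
  rw [mul_comm] at this
  simpa using this

lemma exp_dist2 (x y : ℝ) :
    ‖Complex.exp (x * Complex.I) - Complex.exp (y * Complex.I)‖ ≤ |x - y| := by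
  have h1 : Complex.exp (x * Complex.I) - Complex.exp (y * Complex.I) =
      Complex.exp (y * Complex.I) * (Complex.exp (((x - y : ℝ) : ℂ) * Complex.I) - 1) := by
    rw [mul_sub, ← Complex.exp_add, mul_one]
    congr 2
    push_cast
    ring
  rw [h1, norm_mul, Complex.norm_exp_ofReal_mul_I, one_mul]
  exact exp_dist _

lemma near {W : Set ℂ} (hW : IsOpen W) (θ₀ : ℝ) (h : Complex.exp (θ₀ * Complex.I) ∈ W) :
    ∃ η : ℝ, 0 < η ∧ η ≤ 1 / 2 ∧ ∀ r θ : ℝ, 1 - η < r → r < 1 → |θ - θ₀| < η →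
      (r : ℂ) * Complex.exp (θ * Complex.I) ∈ ball (0 : ℂ) 1 ∩ W := by
  obtain ⟨ε, hε, hb⟩ := Metric.isOpen_iff.1 hW _ h
  refine ⟨min (ε / 2) (1 / 2), by positivity, min_le_right _ _, fun r θ h1 h2 h3 => ⟨?_, hb ?_⟩⟩
  · have hr : 0 < r := by
      have := min_le_right (ε / 2) (1 / 2 : ℝ)
      linarith
    rw [mem_ball_zero_iff, norm_mul, Complex.norm_exp_ofReal_mul_I, mul_one, Complex.norm_real,
      Real.norm_of_nonneg hr.le]
    exact h2
  · rw [mem_ball, dist_eq_norm]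
    have e1 : (r : ℂ) * Complex.exp (θ * Complex.I) - Complex.exp (θ₀ * Complex.I) =
        ((r - 1 : ℝ) : ℂ) * Complex.exp (θ * Complex.I) +
        (Complex.exp (θ * Complex.I) - Complex.exp (θ₀ * Complex.I)) := by
      push_cast; ring
    rw [e1]
    refine (norm_add_le _ _).trans_lt ?_
    rw [norm_mul, Complex.norm_exp_ofReal_mul_I, mul_one, Complex.norm_real, Real.norm_eq_abs]
    have e2 := exp_dist2 θ θ₀
    have e3 : |r - 1| < ε / 2 := by
      rw [abs_lt]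
      have := min_le_left (ε / 2) (1 / 2 : ℝ)
      constructor <;> linarith
    have e4 := min_le_left (ε / 2) (1 / 2 : ℝ)
    linarith

lemma lift {s w : ℂ} (hs : ‖s‖ = 1) (θ₀ : ℝ) {n : ℕ} (hn : 0 < n) :
    ∃ θ : ℝ, |θ - θ₀| ≤ 2 * Real.pi / n ∧
      s * (((‖w‖ ^ (1 / n : ℝ) : ℝ) : ℂ) * Complex.exp (θ * Complex.I)) ^ n = w := by
  have hn' : (0 : ℝ) < n := by exact_mod_cast hn
  have hpi := Real.pi_pos
  set ψ := Complex.arg w
  set τ := Complex.arg s
  set k := ⌊(n * θ₀ - (ψ - τ)) / (2 * Real.pi)⌋ with hk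
  have k1 : (k : ℝ) ≤ (n * θ₀ - (ψ - τ)) / (2 * Real.pi) := Int.floor_le _
  have k2 : (n * θ₀ - (ψ - τ)) / (2 * Real.pi) < k + 1 := Int.lt_floor_add_one _
  rw [le_div_iff₀ (by positivity)] at k1
  rw [div_lt_iff₀ (by positivity)] at k2
  have e1 : n * ((ψ - τ + 2 * Real.pi * k) / n) = ψ - τ + 2 * Real.pi * k := by
    field_simp
  refine ⟨(ψ - τ + 2 * Real.pi * k) / n, ?_, ?_⟩
  · rw [abs_le]
    constructor
    · rw [neg_le_sub_iff_le_add, ← sub_le_iff_le_add, ← mul_le_mul_iff_right₀ hn', e1, mul_sub,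
        mul_div_cancel₀ _ hn'.ne']
      linarith
    · rw [sub_le_iff_le_add, ← mul_le_mul_iff_right₀ hn', e1, mul_add, mul_div_cancel₀ _ hn'.ne']
      nlinarith
  · rw [mul_pow, ← Complex.exp_nat_mul, ← Complex.ofReal_pow, ← Real.rpow_natCast, ← Real.rpow_mul
      (norm_nonneg _), one_div, inv_mul_cancel₀ hn'.ne', Real.rpow_one]
    have e2 : (n : ℂ) * ((((ψ - τ + 2 * Real.pi * k) / n : ℝ) : ℂ) * Complex.I) =
        (ψ - τ) * Complex.I + k * (2 * Real.pi * Complex.I) := by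
      rw [← mul_assoc]
      have : (n : ℂ) * (((ψ - τ + 2 * Real.pi * k) / n : ℝ) : ℂ) = ((ψ - τ + 2 * Real.pi * k : ℝ) : ℂ) := by
        exact_mod_cast e1
      rw [this]
      push_cast
      ring
    rw [e2, Complex.exp_periodic.int_mul k]
    have e3 : s = Complex.exp (τ * Complex.I) := by
      have := Complex.norm_mul_exp_arg_mul_I s
      rw [hs] at this
      simpa using this.symm
    have e4 : w = ‖w‖ * Complex.exp (ψ * Complex.I) := (Complex.norm_mul_exp_arg_mul_I w).symm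
    calc s * (‖w‖ * Complex.exp ((ψ - τ) * Complex.I))
        = ‖w‖ * (Complex.exp (τ * Complex.I) * Complex.exp ((ψ - τ) * Complex.I)) := by
          rw [← e3]; ring
      _ = ‖w‖ * Complex.exp (ψ * Complex.I) := by
          rw [← Complex.exp_add]; congr 2; ring
      _ = w := e4.symm

/-- **SR/HFL.** -/
theorem hfl : S_CO → S_HFL := by
  intro hco P q σ α H W h0 h1 hσ hPd hP hq hL hE hW hne hH
  obtain ⟨z₀, hz₀W, hz₀⟩ := hne
  have hz₀' : z₀ = Complex.exp ((Complex.arg z₀ : ℝ) * Complex.I) := by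
    have := Complex.norm_mul_exp_arg_mul_I z₀
    rw [mem_sphere_zero_iff_norm.1 hz₀] at this
    simpa using this.symm
  set θ₀ := Complex.arg z₀ with hθ₀
  obtain ⟨η, hη, hη2, hnear⟩ := near hW θ₀ (hz₀' ▸ hz₀W)
  have hpi := Real.pi_pos
  obtain ⟨m, hm⟩ : ∃ m : ℕ, 3 * Real.pi / 2 ^ m < η := by
    obtain ⟨m, hm⟩ := pow_unbounded_of_one_lt (3 * Real.pi / η) (one_lt_two (α := ℝ))
    refine ⟨m, ?_⟩
    rw [div_lt_iff₀ (by positivity)]
    rw [div_lt_iff₀ hη] at hm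
    linarith
  obtain ⟨C, hC, hCb⟩ := hoelder h0 h1 hσ hP hq hL hE hH m
  refine ⟨m, C, fun M hM => ?_⟩
  have hM' : (0 : ℝ) < M := by exact_mod_cast hM
  set ω := Complex.exp (((Real.pi / M : ℝ) : ℂ) * Complex.I) with hω
  have hωM : ω ^ M = -1 := by
    rw [hω, ← Complex.exp_nat_mul, ← Complex.exp_pi_mul_I]
    congr 1
    push_cast
    have : (M : ℂ) ≠ 0 := by exact_mod_cast hM'.ne'
    field_simp
  have hωn : ‖ω‖ = 1 := Complex.norm_exp_ofReal_mul_I _
  set D : ℂ → ℂ := fun z => P m z + (-1) * P m (ω * z) with hD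
  set B := C * (Real.pi / M) ^ α with hB
  have hB0 : 0 ≤ B := mul_nonneg hC (Real.rpow_nonneg (by positivity) _)
  set n : ℕ := 2 ^ m with hn
  have hn0 : 0 < n := by positivity
  have hn' : (0 : ℝ) < n := by exact_mod_cast hn0
  have hnm : (n : ℝ) = 2 ^ m := by rw [hn]; push_cast; rfl
  -- the bound near the circle
  have hDb : ∀ w : ℂ, (1 - η) ^ n < ‖w‖ → ‖w‖ < 1 → ‖D w‖ ≤ B := by
    intro w hw1 hw2
    obtain ⟨θ, hθ, hlift⟩ := lift (w := w) (ss_norm hσ m) θ₀ hn0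
    set ρ : ℝ := ‖w‖ ^ (1 / n : ℝ) with hρ
    have hρ0 : 0 ≤ ρ := Real.rpow_nonneg (norm_nonneg _) _
    have hρn : ρ ^ n = ‖w‖ := by
      rw [hρ, ← Real.rpow_natCast, ← Real.rpow_mul (norm_nonneg _), one_div,
        inv_mul_cancel₀ hn'.ne', Real.rpow_one]
    have hρ1 : ρ < 1 := by
      by_contra hcon
      have := one_le_pow₀ (not_lt.1 hcon) (n := n)
      rw [hρn] at this
      linarith
    have hρ2 : 1 - η < ρ := by
      by_contra hcon
      have := pow_le_pow_left₀ hρ0 (not_lt.1 hcon) n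
      rw [hρn] at this
      linarith
    have hθ2 : 2 * Real.pi / n + Real.pi / n < η := by
      rw [hnm, ← add_div]
      convert hm using 2
      ring
    have hpn : 0 < Real.pi / n := by positivity
    set β : ℝ := Real.pi / (M * n) with hβ
    have hβ0 : 0 ≤ β := by positivity
    have hβ1 : β ≤ Real.pi / n := by
      rw [hβ]
      apply div_le_div_of_nonneg_left hpi.le hn'
      have : (1 : ℝ) ≤ M := by exact_mod_cast hM
      nlinarith
    have hβ2 : β ≤ Real.pi / M := by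
      rw [hβ]
      apply div_le_div_of_nonneg_left hpi.le hM'
      have : (1 : ℝ) ≤ n := by exact_mod_cast hn0
      nlinarith
    have m1 := hnear ρ θ hρ2 hρ1 (by linarith)
    have m2 := hnear ρ (θ + β) hρ2 hρ1 (by
      rw [abs_le] at hθ
      rw [abs_lt]
      constructor <;> linarith [hθ.1, hθ.2])
    have e1 : ss σ m * ((ρ : ℂ) * Complex.exp (((θ + β : ℝ) : ℂ) * Complex.I)) ^ n = ω * w := by
      have : (ρ : ℂ) * Complex.exp (((θ + β : ℝ) : ℂ) * Complex.I) =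
          ((ρ : ℂ) * Complex.exp ((θ : ℂ) * Complex.I)) * Complex.exp ((β : ℂ) * Complex.I) := by
        rw [mul_assoc, ← Complex.exp_add]
        congr 2
        push_cast; ring
      rw [this, mul_pow, ← mul_assoc, hlift, ← Complex.exp_nat_mul, mul_comm]
      congr 2
      rw [hβ]
      push_cast
      have h3 : (M : ℂ) ≠ 0 := by exact_mod_cast hM'.ne'
      have h4 : (n : ℂ) ≠ 0 := by exact_mod_cast hn'.ne'
      field_simp
    have e2 := hCb _ m1 _ m2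
    rw [hlift, e1] at e2
    have e3 : D w = P m w - P m (ω * w) := by rw [hD]; ring
    rw [e3]
    refine e2.trans ?_
    apply mul_le_mul_of_nonneg_left _ hC
    apply Real.rpow_le_rpow (norm_nonneg _) _ h0.le
    have e4 : (ρ : ℂ) * Complex.exp ((θ : ℂ) * Complex.I) -
        (ρ : ℂ) * Complex.exp (((θ + β : ℝ) : ℂ) * Complex.I) =
        ρ * (Complex.exp ((θ : ℂ) * Complex.I) - Complex.exp (((θ + β : ℝ) : ℂ) * Complex.I)) := by ring
    rw [e4, norm_mul, Complex.norm_real, Real.norm_of_nonneg hρ0]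
    have e5 := exp_dist2 θ (θ + β)
    have e6 : |θ - (θ + β)| = β := by rw [sub_add_cancel_left, abs_neg, abs_of_nonneg hβ0]
    rw [e6] at e5
    calc ρ * ‖Complex.exp ((θ : ℂ) * Complex.I) - Complex.exp (((θ + β : ℝ) : ℂ) * Complex.I)‖
        ≤ 1 * β := mul_le_mul hρ1.le e5 (norm_nonneg _) zero_le_one
      _ ≤ Real.pi / M := by rw [one_mul]; exact hβ2
  -- differentiability
  have hDd : DifferentiableOn ℂ D (ball 0 1) := by
    apply (hPd m).add
    apply DifferentiableOn.const_mul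
    apply (hPd m).comp (differentiableOn_id.const_mul ω)
    intro z hz
    simp only [id_eq, mem_ball_zero_iff, norm_mul, hωn, one_mul] at hz ⊢
    exact hz
  have hPa : AnalyticAt ℂ (P m) 0 :=
    (hPd m).analyticAt (isOpen_ball.mem_nhds (mem_ball_self one_pos))
  -- the coefficient
  have hcoef : co M D = 2 * co M (P m) := by
    obtain ⟨_, c2, c3, _, _, c6, _⟩ := hco
    have hPa' : AnalyticAt ℂ (fun z => P m (ω * z)) 0 := by
      apply AnalyticAt.comp' (g := P m) (f := fun z => ω * z)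
      · simpa using hPa
      · exact analyticAt_const.mul analyticAt_id
    rw [hD, c2 M (P m) (fun z => (-1) * P m (ω * z)) hPa (analyticAt_const.mul hPa'), c3 M (-1) _ hPa',
      c6 M _ ω hPa, hωM]
    ring
  -- the radius
  obtain ⟨r, hr0, hr1, hr2, hr3⟩ : ∃ r : ℝ, 0 < r ∧ r < 1 ∧ (1 - η) ^ n < r ∧ 1 / 2 ≤ r ^ M := by
    have hq1 : (1 - η) ^ n < 1 := pow_lt_one₀ (by linarith) (by linarith) hn0.ne'
    have hq0 : 0 ≤ (1 - η) ^ n := pow_nonneg (by linarith) _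
    set δ := min ((1 - (1 - η) ^ n) / 2) (1 / (2 * M)) with hδ
    have d0 : 0 < δ := by
      apply lt_min
      · linarith
      · positivity
    have d1 : δ ≤ (1 - (1 - η) ^ n) / 2 := min_le_left _ _
    have d2 : δ ≤ 1 / (2 * M) := min_le_right _ _
    refine ⟨1 - δ, by linarith, by linarith, by linarith, ?_⟩
    have h3 := one_add_mul_le_pow (a := -δ) (by linarith) M
    have h4 : (M : ℝ) * δ ≤ 1 / 2 := by
      calc (M : ℝ) * δ ≤ M * (1 / (2 * M)) := mul_le_mul_of_nonneg_left d2 hM'.le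
        _ = 1 / 2 := by field_simp
    calc (1 / 2 : ℝ) ≤ 1 + M * -δ := by linarith
      _ ≤ (1 + -δ) ^ M := h3
      _ = (1 - δ) ^ M := by ring
  have hcl : closedBall (0 : ℂ) r ⊆ ball 0 1 := closedBall_subset_ball hr1
  have hdc : DiffContOnCl ℂ D (ball 0 r) := by
    apply DifferentiableOn.diffContOnCl
    rw [closure_ball _ hr0.ne']
    exact hDd.mono hcl
  have hcau := Complex.norm_iteratedDeriv_le_of_forall_mem_sphere_norm_le (C := B) M hr0 hdc (by
    intro z hz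
    have hzr : ‖z‖ = r := mem_sphere_zero_iff_norm.1 hz
    exact hDb z (by rw [hzr]; exact hr2) (by rw [hzr]; exact hr1))
  have hf : (0 : ℝ) < (M.factorial : ℝ) := by exact_mod_cast M.factorial_pos
  have h5 : ‖co M D‖ ≤ B / r ^ M := by
    unfold co
    rw [norm_div, Complex.norm_natCast, div_le_iff₀ hf]
    calc ‖iteratedDeriv M D 0‖ ≤ M.factorial * B / r ^ M := hcau
      _ = B / r ^ M * M.factorial := by ring
  have h6 : B / r ^ M ≤ 2 * B := by
    rw [div_le_iff₀ (by positivity)]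
    nlinarith
  rw [hcoef, norm_mul] at h5
  have h7 : ‖(2 : ℂ)‖ = 2 := by norm_num
  rw [h7] at h5
  linarith

end Pool.Agent.P8H57.SR
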